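import Pool.Agent.Helper53.MR.DensityOne

set_option autoImplicit false
open Filter Topology

namespace Pool.Agent.Helper53.MR.Old.DensityAlephOne

/-- Let `X` be a normal space which embeds in some `c_0(Γ)` with the pointwise topology, has a
dense subset of cardinality at most `ℵ_1`, and is countably metacompact: every countable open cover
`U n` has a point-finite open refinement `V n ⊆ U n` (for normal spaces this is the same as
countable paracompactness). Then every perfect image `Y` of `X` embeds in some `c_0(Γ')`. -/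
theorem result (X Y : Type) [TopologicalSpace X] [TopologicalSpace Y] [NormalSpace X]
    (hX : ∃ (Γ : Type) (e : X → (Γ → ℝ)),
      Topology.IsEmbedding e ∧ ∀ x, Tendsto (e x) cofinite (𝓝 0))
    (hD : ∃ D : Set X, Dense D ∧ Cardinal.mk D ≤ Cardinal.aleph 1)
    (hcm : ∀ U : ℕ → Set X, (∀ n, IsOpen (U n)) → (⋃ n, U n) = Set.univ →
      ∃ V : ℕ → Set X, (∀ n, IsOpen (V n)) ∧ (∀ n, V n ⊆ U n) ∧ (⋃ n, V n) = Set.univ ∧
        ∀ x, {n | x ∈ V n}.Finite)
    (f : X → Y) (hf : IsProperMap f) (hs : Function.Surjective f) :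
    ∃ (Γ' : Type) (g : Y → (Γ' → ℝ)), Topology.IsEmbedding g ∧
      ∀ y, Tendsto (g y) cofinite (𝓝 0) := by
  obtain ⟨Γ, e, he, h0⟩ := hX
  obtain ⟨D, hD, hDc⟩ := hD
  exact Pool.Agent.Helper53.MR.density_one
    (Pool.Agent.Helper53.MR.cpar_of_countablyMetacompact hcm) D hD hDc e he h0 f hf hs

end Pool.Agent.Helper53.MR.Old.DensityAlephOne
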